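import Pool.Agent.T2h40.CW6.All

/-!
Quadruple covers by six even subgraphs for all bridgeless graphs of carving width at most six.

A carving of a graph is a binary tree whose leaves are the vertices; its width is the largest number
of edges that leave the set of leaves of a subtree. Proof. Assign to each edge the 4-subset of the
indices of the even subgraphs containing it. Cuts of size two and cuts of size three with at least
two vertices on both sides are reduced by contracting one side, which does not increase the width.
In the remaining graphs the pieces are joined in an order found from the tree such that each piece
is connected, has at least two vertices outside and three to six outgoing edges. For such a piece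
the set of the colourings of the outgoing edges that extend to the piece contains, up to the
permutations of the six indices and of the outgoing edges, one of 101 explicit sets (1, 2, 4 and 94
sets for 3, 4, 5 and 6 edges). This family of sets is closed under the gluings of two pieces; this
is checked by the kernel, by means of 260, 294 and 90 relations between the colourings of the outer
and the inner ends.
-/

set_option autoImplicit false

open Finset

namespace Pool.Agent.Results.MP_40718a_co.CarvingWidthSix

open Pool.Agent.W420.BF (cut Tr)
open Pool.Agent.T2h40.CW6

open Classical in
/-- Let `G` be a finite graph with loops and parallel edges allowed, given by the two ends `s e` and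
`t e` of each edge `e`. Assume that no set of vertices is left by exactly one edge (no bridges) and
that some binary tree `T` whose leaves are labelled bijectively by the vertices has width at most
six: for each subtree at most six edges leave the set of its leaves. Then there are six even
subgraphs such that each edge lies in exactly four of them. -/
theorem result (V E : Type) [Fintype V] [Fintype E] (s t : E → V)
    (hbridge : ∀ Z : Set V, (cut s t Z).card ≠ 1)
    (hwidth : ∃ T : Tr V, T.set = Set.univ ∧ T.Nodup ∧ T.Width s t 6) :
    ∃ C : Fin 6 → Finset E,
      (∀ i v, Even (((C i).filter (fun e => s e = v)).card +
        ((C i).filter (fun e => t e = v)).card)) ∧
      ∀ e, (univ.filter (fun i => e ∈ C i)).card = 4 := by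
  obtain ⟨T, hT, hN, hW⟩ := hwidth
  obtain ⟨c, hc⟩ := covers V E s t T hN hW
    (fun e => by rw [hT]; exact ⟨Set.mem_univ _, Set.mem_univ _⟩) hbridge
  rw [hT] at hc
  exact fin_cover6 s t c hc

end Pool.Agent.Results.MP_40718a_co.CarvingWidthSix
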