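import Pool.Agent.T2h40.PW5.Exp

/-!
# Quadruple covers by six even subgraphs for all bridgeless graphs of pathwidth at most five

Every finite bridgeless graph of pathwidth at most five has six even subgraphs such that each edge
lies in exactly four of them; more generally, this holds if the edges can be ordered such that for
every initial segment at most six vertices are incident both with an edge of the segment and with
another edge (linear width at most six). The degrees are not bounded.

Proof. Replace each vertex by the path of the edge-ends at this vertex, in the order of the edges,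
and delete the bridges on these paths. The new graph is bridgeless, its edge-ends arise from those
of the old graph by identification, and an initial segment of the edges is now left by one edge for
each vertex incident with the segment and with another edge. So the new graph has carving width at
most six, and the result `CarvingWidthSix` (in this folder) applies. In a path decomposition the
edges are ordered by the first bag which contains both ends; the vertices incident with an initial
segment and with another edge lie in one bag.
-/

set_option autoImplicit false

open Finset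

namespace Pool.Agent.Results.MP_40718a_co.PathwidthFive

open Pool.Agent.T2h40.PW5
open Pool.Agent.T2h40.CW6 (fin_cover6)

/-- The linear width is at most `w`: the edges are ordered by an injective function `f` such that
for each initial segment (the edges `e` with `f e < n`) at most `w` vertices are incident both with
an edge of the segment and with an edge that is not in the segment. -/
def LinearWidthLE {V E : Type} (s t : E → V) (w : ℕ) : Prop :=
  ∃ f : E → ℕ, Function.Injective f ∧ ∀ n : ℕ,
    {v | (∃ e, f e < n ∧ (s e = v ∨ t e = v)) ∧ ∃ e, n ≤ f e ∧ (s e = v ∨ t e = v)}.ncard ≤ w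

/-- The pathwidth is at most `k`: there is a sequence of bags `bag 0, …, bag (r - 1)` with at most
`k + 1` vertices each such that each vertex is in a bag, both ends of each edge are in a common bag,
and the bags containing a vertex are consecutive. -/
def PathwidthLE {V E : Type} (s t : E → V) (k : ℕ) : Prop :=
  ∃ (r : ℕ) (bag : Fin r → Finset V), (∀ v, ∃ i, v ∈ bag i) ∧ (∀ e, ∃ i, s e ∈ bag i ∧ t e ∈ bag i) ∧
    (∀ i j l : Fin r, i ≤ j → j ≤ l → ∀ v, v ∈ bag i → v ∈ bag l → v ∈ bag j) ∧
    ∀ i, (bag i).card ≤ k + 1

/-- Order the edges by the first bag containing both ends. -/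
theorem linear_of_path {V E : Type} [Finite V] [Finite E] {s t : E → V} {k : ℕ}
    (h : PathwidthLE s t k) : LinearWidthLE s t (k + 1) := by
  classical
  obtain ⟨r, bag, -, h2, h3, h4⟩ := h
  choose b hb using h2
  have := Fintype.ofFinite E
  rcases isEmpty_or_nonempty E with hE | ⟨⟨e0⟩⟩
  · refine ⟨fun _ => 0, fun e => (hE.false e).elim, fun n => ?_⟩
    have : {v | (∃ e, (fun _ : E => 0) e < n ∧ (s e = v ∨ t e = v)) ∧
        ∃ e, n ≤ (fun _ : E => 0) e ∧ (s e = v ∨ t e = v)} = ∅ := by
      ext v
      constructor
      · rintro ⟨⟨e, _⟩, _⟩
        exact hE.false e
      · intro h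
        exact h.elim
    rw [this, Set.ncard_empty]
    omega
  · let q := Fintype.equivFin E
    obtain ⟨m, hm⟩ : ∃ m, m = Fintype.card E := ⟨_, rfl⟩
    have hq : ∀ e, (q e : ℕ) < m := fun e => hm ▸ (q e).2
    have hm0 : 0 < m := lt_of_le_of_lt (Nat.zero_le _) (hq e0)
    let f : E → ℕ := fun e => (b e : ℕ) * m + q e
    have hdiv : ∀ e, f e / m = b e := by
      intro e
      show ((b e : ℕ) * m + q e) / m = b e
      rw [Nat.add_comm, Nat.add_mul_div_right _ _ hm0, Nat.div_eq_of_lt (hq e), Nat.zero_add]
    have hmod : ∀ e, f e % m = q e := by
      intro e
      show ((b e : ℕ) * m + q e) % m = q e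
      rw [Nat.add_comm, Nat.add_mul_mod_self_right, Nat.mod_eq_of_lt (hq e)]
    refine ⟨f, ?_, ?_⟩
    · intro e e' hee
      apply q.injective
      apply Fin.ext
      rw [← hmod, ← hmod, hee]
    · intro n
      by_cases hn : n / m < r
      · have hsub : {v | (∃ e, f e < n ∧ (s e = v ∨ t e = v)) ∧
            ∃ e, n ≤ f e ∧ (s e = v ∨ t e = v)} ⊆ (bag ⟨n / m, hn⟩ : Set V) := by
          rintro v ⟨⟨e, h5, h6⟩, e', h7, h8⟩
          apply h3 (b e) ⟨n / m, hn⟩ (b e')
          · rw [Fin.le_def, ← hdiv]
            exact Nat.div_le_div_right h5.le
          · rw [Fin.le_def, ← hdiv]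
            exact Nat.div_le_div_right h7
          · rcases h6 with rfl | rfl
            · exact (hb e).1
            · exact (hb e).2
          · rcases h8 with rfl | rfl
            · exact (hb e').1
            · exact (hb e').2
        refine (Set.ncard_le_ncard hsub (Finset.finite_toSet _)).trans ?_
        rw [Set.ncard_coe_finset]
        exact h4 _
      · have : {v | (∃ e, f e < n ∧ (s e = v ∨ t e = v)) ∧
            ∃ e, n ≤ f e ∧ (s e = v ∨ t e = v)} = ∅ := by
          ext v
          constructor
          · rintro ⟨_, e', h7, _⟩
            apply hn
            refine lt_of_le_of_lt (Nat.div_le_div_right h7) ?_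
            rw [hdiv]
            exact (b e').2
          · intro h
            exact h.elim
        rw [this, Set.ncard_empty]
        omega

open Classical in
/-- Let `G` be a finite graph with loops and parallel edges allowed, given by the two ends `s e` and
`t e` of each edge `e`. Assume that no set of vertices is left by exactly one edge (no bridges) and
that `G` has pathwidth at most five, or linear width at most six. Then there are six even subgraphs
such that each edge lies in exactly four of them. -/
theorem result (V E : Type) [Fintype V] [Fintype E] (s t : E → V)
    (hbridge : ∀ Z : Set V, {e | ¬ (s e ∈ Z ↔ t e ∈ Z)}.ncard ≠ 1)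
    (hwidth : PathwidthLE s t 5 ∨ LinearWidthLE s t 6) :
    ∃ C : Fin 6 → Finset E,
      (∀ i v, Even (((C i).filter (fun e => s e = v)).card +
        ((C i).filter (fun e => t e = v)).card)) ∧
      ∀ e, (univ.filter (fun i => e ∈ C i)).card = 4 := by
  obtain ⟨f, hf, hm⟩ : LinearWidthLE s t 6 := by
    rcases hwidth with h | h
    · exact linear_of_path h
    · exact h
  obtain ⟨c, hc⟩ := linear s t f hf hm (fun Z h => hbridge Z (by
    rw [← h, ← Set.ncard_coe_finset]
    congr 1
    ext e
    rw [Finset.mem_coe, mcut]
    rfl))
  exact fin_cover6 s t c hc

end Pool.Agent.Results.MP_40718a_co.PathwidthFive
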