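import Pool.Agent.X24.Quad
import Pool.Agent.Results.MP_40718a_co.PathwidthFive
import Pool.Agent.T2h40.CP.Core
import Pool.Agent.T2h40.CP.FourG

/-!
# Quadruple covers by six even subgraphs: contraction of dense pieces (MP_40718a_co)

A set of vertices of a multigraph is dense if each of its partitions into `k` classes has at least
`5 (k - 1) / 2` crossing edges, for example if it is a single vertex or induces a 5-edge-connected
subgraph, a complete graph with at least five vertices, or a triple edge.  Let `Closure` be the least
class of finite multigraphs which contains the unions of two even subgraphs (the graphs with a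
nowhere-zero 4-flow) and the bridgeless graphs of carving width at most six, of pathwidth at most
five and of linear width at most six, and which is closed under identification of vertices,
edge-disjoint unions, sums along edge cuts with at most three edges, and under the expansion of
vertices to dense sets of any size and to complete graphs with four vertices: if the contraction of
disjoint dense sets of vertices of a graph, or of four pairwise adjacent vertices, gives a graph in
the class then the graph is in the class.  Every graph of this class has a quadruple cover by six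
even subgraphs.

Proof for the expansions.  A quadruple cover of the graph obtained by the contraction is changed
inside the dense sets.  By the matroid union theorem on two copies of the edges of the dense sets
there are five connecting sets of edges such that each edge is in at most two of them and the first
two are disjoint.  The even subgraphs numbered `5, 4, 3, 2, 1` are chosen in this order; the parity
conditions at the vertices are restored by changes along the connecting sets `5, 4, 3, 2, 1`, and the
values of the other edges of the pieces are prescribed depending on the earlier values such that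
three or four of the five even subgraphs contain each edge.  The sixth even subgraph is the sum of
the five.  (Doubled circuits with at least 32 vertices are 4-edge-connected and do not have this
property of dense sets: some parity conditions inside cannot be satisfied.)  For complete graphs with
four vertices all `32 ^ 3` possible parity conditions are checked by the kernel.
-/

set_option autoImplicit false

namespace Pool.Agent.Results.MP_40718a_co.DensePieces

open Finset

/-- Every vertex has even degree in `(V, C)`; a loop counts twice. -/
def IsEven {V E : Type} (src dst : E → V) (C : Set E) : Prop :=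
  ∀ v, Even ({e | e ∈ C ∧ src e = v}.ncard + {e | e ∈ C ∧ dst e = v}.ncard)

/-- There are six even subgraphs such that every edge is in exactly four of them. -/
def QuadrupleCover {V E : Type} (src dst : E → V) : Prop :=
  ∃ C : Fin 6 → Set E, (∀ i, IsEven src dst (C i)) ∧ ∀ e, {i | e ∈ C i}.ncard = 4

/-- The edges with exactly one end in `Z`. -/
def leaving {V E : Type} (src dst : E → V) (Z : Set V) : Set E :=
  {e | ¬ (src e ∈ Z ↔ dst e ∈ Z)}

/-- Every partition of the set `Z` into `k` classes (the classes of a function `κ`) has at least
`5 (k - 1) / 2` crossing edges, that is edges with both ends in `Z`, in different classes. -/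
def Dense {V E : Type} (src dst : E → V) (Z : Set V) : Prop :=
  ∀ κ : V → ℕ, 5 * ((κ '' Z).ncard - 1) ≤
    2 * {e | src e ∈ Z ∧ dst e ∈ Z ∧ κ (src e) ≠ κ (dst e)}.ncard

/-- The carving width is at most `k`: `T` is a binary tree whose leaves are labelled bijectively by
the vertices, and for every subtree at most `k` edges leave the set of its leaves. -/
def CarvingWidthLE {V E : Type} [Fintype E] (src dst : E → V) (k : ℕ) : Prop :=
  ∃ T : Pool.Agent.W420.BF.Tr V, T.set = Set.univ ∧ T.Nodup ∧ T.Width src dst k

/-- The pathwidth is at most `k`: there is a sequence of bags `bag 0, …, bag (r - 1)` with at most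
`k + 1` vertices each such that each vertex is in a bag, both ends of each edge are in a common bag,
and the bags containing a vertex are consecutive. -/
def PathwidthLE {V E : Type} (src dst : E → V) (k : ℕ) : Prop :=
  ∃ (r : ℕ) (bag : Fin r → Finset V), (∀ v, ∃ i, v ∈ bag i) ∧
    (∀ e, ∃ i, src e ∈ bag i ∧ dst e ∈ bag i) ∧
    (∀ i j l : Fin r, i ≤ j → j ≤ l → ∀ v, v ∈ bag i → v ∈ bag l → v ∈ bag j) ∧
    ∀ i, (bag i).card ≤ k + 1

/-- The linear width is at most `w`: the edges are ordered by an injective function `f` such that
for each initial segment (the edges `e` with `f e < n`) at most `w` vertices are incident both with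
an edge of the segment and with an edge that is not in the segment. -/
def LinearWidthLE {V E : Type} (src dst : E → V) (w : ℕ) : Prop :=
  ∃ f : E → ℕ, Function.Injective f ∧ ∀ n : ℕ,
    {v | (∃ e, f e < n ∧ (src e = v ∨ dst e = v)) ∧
      ∃ e, n ≤ f e ∧ (src e = v ∨ dst e = v)}.ncard ≤ w

open Classical in
/-- Contraction of `Z` to its element `z`: every vertex of `Z` is replaced by `z`. -/
noncomputable def contract {V : Type} (Z : Set V) (z v : V) : V := if v ∈ Z then z else v

open Classical in
/-- The second ends of the edges after the edges in `D` have been replaced by loops. -/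
noncomputable def drop {V E : Type} (src dst : E → V) (D : Set E) (e : E) : V :=
  if e ∈ D then src e else dst e

/-- The closure of the basic graphs under identification of vertices, edge-disjoint unions, sums
along cuts with at most three edges, expansion of vertices to dense sets (`p` maps the vertices of
the expanded graph to those of the given graph), and expansion of a vertex to a set of four pairwise
adjacent vertices. The edge set `E` is fixed (a deleted edge is a loop), the vertex set may
change. -/
inductive Closure {E : Type} [Fintype E] : ∀ {V : Type}, (E → V) → (E → V) → Prop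
  | flow {V : Type} (src dst : E → V) (C₁ C₂ : Set E) : IsEven src dst C₁ → IsEven src dst C₂ →
      C₁ ∪ C₂ = Set.univ → Closure src dst
  | narrow {V : Type} [Finite V] (src dst : E → V) :
      (∀ Z, (leaving src dst Z).ncard ≠ 1) →
      (CarvingWidthLE src dst 6 ∨ PathwidthLE src dst 5 ∨ LinearWidthLE src dst 6) →
      Closure src dst
  | identify {V W : Type} (src dst : E → V) (c : V → W) : Closure src dst →
      Closure (c ∘ src) (c ∘ dst)
  | union {V : Type} (src dst : E → V) (D : Set E) : Closure src (drop src dst D) →
      Closure src (drop src dst Dᶜ) → Closure src dst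
  | sum {V : Type} (src dst : E → V) (Z : Set V) (z z' : V) : z ∈ Z → z' ∉ Z →
      (leaving src dst Z).ncard ≤ 3 → Closure (contract Z z ∘ src) (contract Z z ∘ dst) →
      Closure (contract Zᶜ z' ∘ src) (contract Zᶜ z' ∘ dst) → Closure src dst
  | expand {V W : Type} [Finite V] [Finite W] (src dst : E → V) (p : V → W) :
      (∀ w, Dense src dst (p ⁻¹' {w})) → Closure (p ∘ src) (p ∘ dst) → Closure src dst
  | four {V : Type} (src dst : E → V) (v : Fin 4 → V) : Function.Injective v →
      (∀ i j, i ≠ j → ∃ e, (src e = v i ∧ dst e = v j) ∨ (src e = v j ∧ dst e = v i)) →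
      Closure (contract (Set.range v) (v 0) ∘ src) (contract (Set.range v) (v 0) ∘ dst) →
      Closure src dst

open Pool.Agent.X24.QC

section
variable {E : Type} [Fintype E]

open Classical in
theorem bd_ind {V : Type} (src dst : E → V) (C : Set E) (x : V) :
    bd src dst (fun e => if e ∈ C then 1 else 0) x =
      (({e | e ∈ C ∧ src e = x}.ncard + {e | e ∈ C ∧ dst e = x}.ncard : ℕ) : ZMod 2) := by
  have h : ∀ s : E → V, {e | e ∈ C ∧ s e = x}.ncard = ∑ e, if (e ∈ C ∧ s e = x) then 1 else 0 := by
    intro s
    rw [Set.ncard_eq_toFinset_card', Set.toFinset_ofPred, card_filter]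
  rw [h, h]
  unfold bd
  push_cast
  rw [← sum_add_distrib]
  refine sum_congr rfl fun e _ => ?_
  by_cases h1 : e ∈ C <;> by_cases h2 : src e = x <;> by_cases h3 : dst e = x <;>
    simp [h1, h2, h3]

theorem isEven_iff {V : Type} (src dst : E → V) (C : Set E) [DecidablePred (· ∈ C)] :
    IsEven src dst C ↔ ∀ x, bd src dst (fun e => if e ∈ C then 1 else 0) x = 0 := by
  unfold IsEven
  refine forall_congr' fun x => ?_
  rw [← ZMod.natCast_eq_zero_iff_even, ← bd_ind]
  have : (fun e => @ite (ZMod 2) (e ∈ C) (Classical.propDecidable _) 1 0) =
      fun e => if e ∈ C then 1 else 0 := by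
    funext e; congr
  rw [this]

theorem cover_of_qc {V : Type} {src dst : E → V} (h : QC src dst) : QuadrupleCover src dst := by
  classical
  obtain ⟨f, h1, h2⟩ := h
  refine ⟨fun i => {e | f i e = 1}, fun i => ?_, fun e => ?_⟩
  · rw [isEven_iff]
    intro x
    refine Eq.trans ?_ (h1 i x)
    congr 1
    funext e
    rcases one_or (f i e) with h | h <;> simp [h]
  · rw [← h2 e, Set.ncard_eq_toFinset_card']
    congr 1
    ext i
    simp

/-- two even subgraphs -/
theorem qc_of_flow {V : Type} {src dst : E → V} {C₁ C₂ : Set E} (h1 : IsEven src dst C₁)
    (h2 : IsEven src dst C₂) (h : C₁ ∪ C₂ = Set.univ) : QC src dst := by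
  classical
  rw [isEven_iff] at h1 h2
  set a : E → ZMod 2 := fun e => if e ∈ C₁ then 1 else 0 with ha
  set b : E → ZMod 2 := fun e => if e ∈ C₂ then 1 else 0 with hb
  have hab : ∀ x, bd src dst (fun e => a e + b e) x = 0 := by
    intro x
    have : bd src dst (fun e => a e + b e) x = bd src dst a x + bd src dst b x := by
      unfold bd
      rw [← sum_add_distrib]
      refine sum_congr rfl fun e _ => ?_
      by_cases h3 : src e = x <;> by_cases h4 : dst e = x <;> simp [h3, h4]
      ring
    rw [this, h1, h2, add_zero]
  refine ⟨![a, a, b, b, fun e => a e + b e, fun e => a e + b e], fun i => ?_, fun e => ?_⟩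
  · fin_cases i
    · exact h1
    · exact h1
    · exact h2
    · exact h2
    · exact hab
    · exact hab
  · have key : ∀ u v : ZMod 2, (u = 1 ∨ v = 1) →
        (univ.filter fun i : Fin 6 => (![u, u, v, v, u + v, u + v] : Fin 6 → ZMod 2) i = 1).card
          = 4 := by decide
    refine Eq.trans ?_ (key (a e) (b e) ?_)
    · congr 1
    · have he : e ∈ C₁ ∪ C₂ := by rw [h]; exact Set.mem_univ _
      rcases he with h3 | h3
      · left; simp [ha, h3]
      · right; simp [hb, h3]

/-- the two definitions of the boundary agree -/
theorem bd_bd {V : Type} (src dst : E → V) (g : E → ZMod 2) (x : V) :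
    bd src dst g x = Pool.Agent.W420.BF.bd src dst g x := by
  unfold bd Pool.Agent.W420.BF.bd
  refine sum_congr rfl fun e _ => ?_
  by_cases h1 : src e = x <;> by_cases h2 : dst e = x <;> simp [h1, h2, mul_add]

theorem qc_iff {V : Type} (src dst : E → V) :
    QC src dst ↔ ∃ c, Pool.Agent.T2h40.CW6.Cov src dst Set.univ c := by
  constructor
  · rintro ⟨f, h1, h2⟩
    exact ⟨f, h2, fun v _ i => by rw [← bd_bd]; exact h1 i v⟩
  · rintro ⟨f, h1, h2⟩
    exact ⟨f, fun i x => by rw [bd_bd]; exact h2 x (Set.mem_univ x) i, h1⟩

/-- graphs of small width -/
theorem qc_of_narrow {V : Type} [Finite V] {src dst : E → V}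
    (h : ∀ Z, (leaving src dst Z).ncard ≠ 1)
    (hw : CarvingWidthLE src dst 6 ∨ PathwidthLE src dst 5 ∨ LinearWidthLE src dst 6) :
    QC src dst := by
  have hb : ∀ Z : Set V, (Pool.Agent.W420.BF.cut src dst Z).card ≠ 1 := by
    intro Z h1
    apply h Z
    rw [← h1, ← Set.ncard_coe_finset]
    congr 1
    ext e
    rw [Finset.mem_coe, Pool.Agent.T2h40.PW5.mcut]
    rfl
  rw [qc_iff]
  have hlin : LinearWidthLE src dst 6 →
      ∃ c, Pool.Agent.T2h40.CW6.Cov src dst Set.univ c := by
    rintro ⟨f, hf, hm⟩
    exact Pool.Agent.T2h40.PW5.linear src dst f hf hm hb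
  rcases hw with ⟨T, hT, hN, hW⟩ | h | h
  · obtain ⟨c, hc⟩ := Pool.Agent.T2h40.CW6.covers V E src dst T hN hW
      (fun e => by rw [hT]; exact ⟨Set.mem_univ _, Set.mem_univ _⟩) hb
    rw [hT] at hc
    exact ⟨c, hc⟩
  · exact hlin (PathwidthFive.linear_of_path h)
  · exact hlin h

/-- expansion of vertices to dense sets -/
theorem qc_expand {V W : Type} [Finite V] [Finite W] {src dst : E → V} (p : V → W)
    (hd : ∀ w, Dense src dst (p ⁻¹' {w})) (h : QC (p ∘ src) (p ∘ dst)) : QC src dst := by
  classical
  have := Fintype.ofFinite V
  have := Fintype.ofFinite W
  rw [qc_iff] at h ⊢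
  obtain ⟨c, hc⟩ := h
  exact Pool.Agent.T2h40.CP.contract src dst p hd c hc

end

/-- Every graph in the class `Closure` has a quadruple cover by six even subgraphs. -/
theorem result (V E : Type) [Fintype E] (src dst : E → V) (h : Closure src dst) :
    QuadrupleCover src dst := by
  apply cover_of_qc
  induction h with
  | flow src dst C₁ C₂ h1 h2 h => exact qc_of_flow h1 h2 h
  | narrow src dst h hw => exact qc_of_narrow h hw
  | identify src dst c _ ih => exact QC.map c ih
  | union src dst D _ _ ih1 ih2 => exact QC.union D ih1 ih2
  | sum src dst Z z z' hz hz' h3 _ _ ih1 ih2 => exact QC.sum Z hz hz' h3 ih1 ih2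
  | expand src dst p hd _ ih => exact qc_expand p hd ih
  | four src dst v hv hj _ ih => exact Pool.Agent.T2h40.CP.qc_four src dst v hv hj ih

end Pool.Agent.Results.MP_40718a_co.DensePieces
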