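import Pool.Agent.T2h38.C13.Chain

/-!
# Six even subgraphs covering every edge four times: circuits with at most thirteen vertices modulo a
chain of short and doubly connected pieces (MP_40718a_co)

Let `G` be a finite multigraph without cut edges, and let `F` be the union of a chain of circuits or
ears with at most four new edges and of doubly connected pieces (for instance 4-edge-connected
subgraphs; `F` may be empty, a spanning subgraph, or anything in between). If the graph obtained from
`G` by contraction of `F` has no circuit with more than thirteen vertices, then `G` has six even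
subgraphs such that every edge is in exactly four of them.

For `F` empty these are the graphs of circumference at most thirteen; in general the circumference of
`G` is not bounded, and neither are the order, the degrees, the connectivity and the widths.

Proof. The condition on the circuits is not inherited by the identification of arbitrary
vertices (this was used for the earlier results with chains), only by contractions of connected sets.
So let `H` be obtained from `G` by contraction of disjoint connected sets of vertices, without six such
subgraphs, and with as few edges (apart from loops) as possible. The images of the pieces form a chain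
in `H`, and `H / F` is a contraction of connected sets of `G / F` (`Pool/Agent/T2h38/C13/Chain.lean`),
so it has no circuits with more than thirteen vertices. By the theorem on circumference thirteen of
the starting library (`N393/C13`), `H / F` has a nowhere-zero 4-flow, which can be lifted to `H` along
the chain, or a partition into ten classes which form a Petersen graph, and then so does `H`. In the
second case one glues at the cuts with three edges, and a component of `H` is the Petersen graph.
-/

set_option autoImplicit false

namespace Pool.Agent.Results.MP_40718a_co.LongCircuitsModuloChains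

open Finset

/-- the simple graph in which two distinct vertices are adjacent if an edge in `F` joins them -/
def under {V E : Type} (src dst : E → V) (F : Set E) : SimpleGraph V where
  Adj x y := x ≠ y ∧ ∃ e ∈ F, (src e = x ∧ dst e = y) ∨ (src e = y ∧ dst e = x)
  symm := ⟨fun _ _ h => ⟨h.1.symm, h.2.imp fun _ he => ⟨he.1, he.2.symm⟩⟩⟩
  loopless := ⟨fun _ h => h.1 rfl⟩

/-- the edge `e` is a cut edge: its ends are not connected by the other edges -/
def IsCutEdge {V E : Type} (src dst : E → V) (e : E) : Prop :=
  ¬ (under src dst {e' | e' ≠ e}).Reachable (src e) (dst e)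

/-- the degree of `v` in the set of edges `F`, where a loop counts twice -/
def deg {V E : Type} [DecidableEq V] (src dst : E → V) (F : Finset E) (v : V) : ℕ :=
  ∑ e ∈ F, ((if src e = v then 1 else 0) + (if dst e = v then 1 else 0))

/-- The edges with exactly one end in `X`. -/
def boundary {V E : Type} [DecidableEq V] [Fintype E] (src dst : E → V) (X : Finset V) :
    Finset E :=
  univ.filter (fun e => ¬ (src e ∈ X ↔ dst e ∈ X))

/-- The union of the sets `C j` with `j < i`. -/
def earlier {E : Type} [DecidableEq E] {m : ℕ} (C : Fin m → Finset E) (i : Fin m) : Finset E :=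
  (univ.filter (fun j => j < i)).biUnion C

/-- `H` can be added to the chain after `F`: either (short) `H` has at most four edges outside `F`
and no bridge modulo `F`: no set `Y` of vertices without boundary edges in `F` has exactly one
boundary edge in `H`; or (doubly connected) `H` contains two disjoint sets each of which connects,
modulo `F`, whatever `H` connects: every set `Y` of vertices without boundary edges in `F` and with
a boundary edge in `H` has boundary edges in both sets. -/
def Adds {V E : Type} [DecidableEq V] [Fintype E] [DecidableEq E] (src dst : E → V)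
    (F H : Finset E) : Prop :=
  ((H \ F).card ≤ 4 ∧ ∀ Y : Finset V, Disjoint (boundary src dst Y) F →
    (boundary src dst Y ∩ H).card ≠ 1) ∨
  ∃ T₁ T₂ : Finset E, T₁ ⊆ H ∧ T₂ ⊆ H ∧ Disjoint T₁ T₂ ∧ ∀ Y : Finset V,
    Disjoint (boundary src dst Y) F → ¬ Disjoint (boundary src dst Y) H →
      ¬ Disjoint (boundary src dst Y) T₁ ∧ ¬ Disjoint (boundary src dst Y) T₂

/-- `x` and `y` are in the same component of the graph `(V, F)` -/
def Same {V E : Type} (src dst : E → V) (F : Finset E) (x y : V) : Prop :=
  (under src dst (F : Set E)).Reachable x y

/-- The graph obtained by contraction of the set of edges `F` has a circuit with `n` vertices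
(`n ≥ 3`): there are `n` vertices `v 0, ..., v (n - 1)` in different components of the graph `(V, F)`
such that for each `i < n` an edge joins the components of `v i` and of `v (i + 1)`, and `v 0` stands
for `v n`. -/
def HasCircuit {V E : Type} (src dst : E → V) (F : Finset E) (n : ℕ) : Prop :=
  ∃ v : ℕ → V, (∀ i < n, ∀ j < n, Same src dst F (v i) (v j) → i = j) ∧
    ∀ i < n, ∃ e, (Same src dst F (src e) (v i) ∧ Same src dst F (dst e) (v ((i + 1) % n))) ∨
      (Same src dst F (src e) (v ((i + 1) % n)) ∧ Same src dst F (dst e) (v i))

/-- For some chain of sets of edges (for instance the empty chain) the graph obtained by contraction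
of its union has no circuit with more than thirteen vertices. -/
def NoLongCircuit {V E : Type} [Fintype V] [DecidableEq V] [Fintype E] [DecidableEq E]
    (src dst : E → V) : Prop :=
  ∃ (m : ℕ) (C : Fin m → Finset E), (∀ i, Adds src dst (earlier C i) (C i)) ∧
    ∀ n, 13 < n → ¬ HasCircuit src dst (univ.biUnion C) n

/-- **Theorem.** A graph without a cut edge which satisfies the condition above has six even
subgraphs such that every edge is in exactly four of them. -/
theorem result (V E : Type) [Fintype V] [DecidableEq V] [Fintype E] [DecidableEq E]
    (src dst : E → V) (hI : ∀ e, ¬ IsCutEdge src dst e) (h : NoLongCircuit src dst) :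
    ∃ C : Fin 6 → Finset E, (∀ i v, Even (deg src dst (C i) v)) ∧
      ∀ e, (univ.filter fun i => e ∈ C i).card = 4 := by
  classical
  -- no cut with one edge
  have hn : TH362.TF.N1 src dst univ := by
    intro x hx
    obtain ⟨e, he⟩ := card_eq_one.1 hx
    have hmem : e ∈ TH362.TF.cut src dst univ x := by rw [he]; exact mem_singleton_self e
    have h1 : x (src e) ≠ x (dst e) := (mem_filter.1 hmem).2
    apply hI e
    intro hr
    apply h1
    have key : ∀ a b, (under src dst {e' | e' ≠ e}).Reachable a b → x a = x b := by
      rintro a b ⟨w⟩
      induction w with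
      | nil => rfl
      | cons hadj _ ih =>
        refine Eq.trans ?_ ih
        obtain ⟨_, e', he', h2⟩ := hadj
        by_contra hne
        have h3 : e' ∈ TH362.TF.cut src dst univ x := by
          refine mem_filter.2 ⟨mem_univ _, ?_⟩
          rcases h2 with ⟨h3, h4⟩ | ⟨h3, h4⟩
          · rw [h3, h4]; exact hne
          · rw [h3, h4]; exact Ne.symm hne
        rw [he, mem_singleton] at h3
        exact he' h3
    exact key _ _ hr
  obtain ⟨m, C, hC, hO⟩ := h
  -- the components of the chain
  have hsame : ∀ r, T2h38.C13.CQ src dst (univ.biUnion C) r → ∀ x y,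
      (Same src dst (univ.biUnion C) x y → r x = r y) := by
    rintro r hr x y ⟨w⟩
    induction w with
    | nil => rfl
    | cons hadj _ ih =>
      refine Eq.trans ?_ ih
      obtain ⟨_, e', he', h2⟩ := hadj
      have h3 := hr.1 e' (by simpa using he')
      rcases h2 with ⟨h4, h5⟩ | ⟨h4, h5⟩
      · rw [← h4, ← h5]; exact h3
      · rw [← h4, ← h5]; exact h3.symm
  have hsame' : ∀ r, T2h38.C13.CQ src dst (univ.biUnion C) r → ∀ x y,
      (r x = r y → Same src dst (univ.biUnion C) x y) := by
    intro r hr x y hxy
    have h1 := hr.rtg hxy
    induction h1 with
    | refl => exact SimpleGraph.Reachable.refl _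
    | tail _ h2 ih =>
      rename_i b c h3
      have h4 : Same src dst (univ.biUnion C) x b := ih ((hr.of_rtg h3))
      refine h4.trans ?_
      by_cases hbc : b = c
      · rw [hbc]
      · obtain ⟨e, he, h5⟩ := h2
        refine SimpleGraph.Adj.reachable ⟨hbc, e, by simpa using he, ?_⟩
        rcases h5 with ⟨h6, h7⟩ | ⟨h6, h7⟩
        · exact Or.inl ⟨h6, h7⟩
        · exact Or.inr ⟨h6, h7⟩
  have hK : T2h38.C13.CCl T2h38.C13.K13 src dst := by
    refine ⟨m, C, R926.SC.st_of src dst m C hC, fun r hr => Or.inl ?_⟩
    refine N393.C13.NoLong.of fun n hn v hv => ?_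
    obtain ⟨hv1, hv2⟩ := hv
    refine hO n hn ?_
    have hex : ∀ i : ℕ, i < n → ∃ x, r x = v i := by
      intro i hi
      obtain ⟨e, he⟩ := hv2 i hi
      rcases he with ⟨h3, _⟩ | ⟨_, h3⟩
      · exact ⟨_, h3⟩
      · exact ⟨_, h3⟩
    have hne : Nonempty V := ⟨v 0⟩
    choose! w hw using hex
    refine ⟨w, fun i hi j hj hij => ?_, fun i hi => ?_⟩
    · apply hv1 i hi j hj
      rw [← hw i hi, ← hw j hj]
      exact hsame r hr _ _ hij
    · obtain ⟨e, he⟩ := hv2 i hi
      have hi' : (i + 1) % n < n := Nat.mod_lt _ (by omega)
      refine ⟨e, ?_⟩
      rcases he with ⟨h3, h4⟩ | ⟨h3, h4⟩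
      · exact Or.inl ⟨hsame' r hr _ _ (h3.trans (hw i hi).symm),
          hsame' r hr _ _ (h4.trans (hw _ hi').symm)⟩
      · exact Or.inr ⟨hsame' r hr _ _ (h3.trans (hw _ hi').symm),
          hsame' r hr _ _ (h4.trans (hw i hi).symm)⟩
  obtain ⟨φ, h1, h2⟩ := hK.cov T2h38.C13.inh13 hn
  refine ⟨fun i => univ.filter (fun e => φ e i = 1), fun i v => ?_, fun e => ?_⟩
  · have h3 := congrFun (h2 v) i
    unfold TH362.TF.Four.B at h3
    rw [Finset.sum_apply] at h3
    have h4 : ∑ e : E, (((if src e = v then φ e else 0) + (if dst e = v then φ e else 0) :
        R140.PK.M6) i) = ((deg src dst (univ.filter (fun e => φ e i = 1)) v : ℕ) : ZMod 2) := by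
      unfold deg
      rw [Finset.sum_filter]
      push_cast
      refine Finset.sum_congr rfl fun e _ => ?_
      rcases R140.PK.two01 (φ e i) with h5 | h5 <;> by_cases h6 : src e = v <;>
        by_cases h7 : dst e = v <;> simp [h5, h6, h7]
    rw [← ZMod.natCast_eq_zero_iff_even]
    exact h4.symm.trans h3
  · have h3 := h1 e
    unfold R140.PK.wt at h3
    rw [← h3]
    congr 1
    ext i
    simp

end Pool.Agent.Results.MP_40718a_co.LongCircuitsModuloChains
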